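import Pool.Agent.H19W.CS.Tw

/-!
# Automorphisms and the twisted derivatives
-/

set_option autoImplicit false
set_option linter.all false

namespace Pool.Agent.H19W.CS

open Pool.Agent.Helper460_OutF Pool.Agent.Helper460_CSP
open FreeGroup (of)
open Matrix hiding of zpow_neg
open scoped commutatorElement

variable {ι : Type} [DecidableEq ι] [Fintype ι]

/-- The stabiliser of a character. -/
def St (s : ι → ℤˣ) : Subgroup (MulAut (FreeGroup ι)) where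
  carrier := {α | ∀ w, ch s (α w) = ch s w}
  one_mem' := fun w => rfl
  mul_mem' := by
    intro a b ha hb w
    rw [MulAut.mul_apply, ha, hb]
  inv_mem' := by
    intro a ha w
    have h := ha (a⁻¹ w)
    rw [← MulAut.mul_apply, mul_inv_cancel, MulAut.one_apply] at h
    exact h.symm

/-- The automorphisms which preserve the derivative. -/
def Fx (s : ι → ℤˣ) : Subgroup (MulAut (FreeGroup ι)) where
  carrier := {α | ∀ w, dv s (α w) = dv s w}
  one_mem' := fun w => rfl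
  mul_mem' := by
    intro a b ha hb w
    rw [MulAut.mul_apply, ha, hb]
  inv_mem' := by
    intro a ha w
    have h := ha (a⁻¹ w)
    rw [← MulAut.mul_apply, mul_inv_cancel, MulAut.one_apply] at h
    exact h.symm

/-- The automorphisms which preserve the derivative modulo `M`. -/
def Fm (s : ι → ℤˣ) (M : ℤ) : Subgroup (MulAut (FreeGroup ι)) where
  carrier := {α | ∀ w k, M ∣ dv s (α w) k - dv s w k}
  one_mem' := fun w k => by
    show M ∣ dv s w k - dv s w k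
    rw [sub_self]
    exact dvd_zero M
  mul_mem' := by
    intro a b ha hb w k
    have h := dvd_add (ha (b w) k) (hb w k)
    rwa [sub_add_sub_cancel] at h
  inv_mem' := by
    intro a ha w k
    have h := ha (a⁻¹ w) k
    rw [← MulAut.mul_apply, mul_inv_cancel, MulAut.one_apply] at h
    rw [← dvd_neg, neg_sub]
    exact h

lemma mem_St {s : ι → ℤˣ} {α : MulAut (FreeGroup ι)} : α ∈ St s ↔ ∀ w, ch s (α w) = ch s w :=
  Iff.rfl

lemma mem_Fx {s : ι → ℤˣ} {α : MulAut (FreeGroup ι)} : α ∈ Fx s ↔ ∀ w, dv s (α w) = dv s w :=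
  Iff.rfl

lemma mem_Fm {s : ι → ℤˣ} {M : ℤ} {α : MulAut (FreeGroup ι)} :
    α ∈ Fm s M ↔ ∀ w k, M ∣ dv s (α w) k - dv s w k := Iff.rfl

lemma ch_congr {s : ι → ℤˣ} {u w : FreeGroup ι} (h : dv s u = dv s w) : ch s u = ch s w := by
  have h1 := dv_fund s u
  have h2 := dv_fund s w
  rw [h] at h1
  have h3 : (ch s u : ℤ) = (ch s w : ℤ) := by linarith
  exact Units.ext h3

lemma Fx_le_St (s : ι → ℤˣ) : Fx s ≤ St s := fun _ h w => ch_congr (h w)

lemma Fx_le_Fm (s : ι → ℤˣ) (M : ℤ) : Fx s ≤ Fm s M := fun α h w k => by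
  rw [mem_Fx.1 h w, sub_self]
  exact dvd_zero M

/-- The matrix of an automorphism. -/
noncomputable def mJ (s : ι → ℤˣ) (α : MulAut (FreeGroup ι)) : Matrix ι ι ℤ :=
  fun k j => dv s (α (of j)) k

/-- The transported character. -/
def tr (β : MulAut (FreeGroup ι)) (s : ι → ℤˣ) : ι → ℤˣ := fun j => ch s (β (of j))

lemma ch_tr (β : MulAut (FreeGroup ι)) (s : ι → ℤˣ) (w : FreeGroup ι) :
    ch (tr β s) w = ch s (β w) := by
  have : ch (tr β s) = (ch s).comp (β : FreeGroup ι →* FreeGroup ι) := by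
    ext j
    rw [ch_of]
    rfl
  rw [this]
  rfl

lemma tr_of_St {s : ι → ℤˣ} {α : MulAut (FreeGroup ι)} (h : α ∈ St s) : tr α s = s := by
  funext j
  show ch s (α (of j)) = s j
  rw [h, ch_of]

lemma mJ_tr (β : MulAut (FreeGroup ι)) (s : ι → ℤˣ) (w : FreeGroup ι) :
    mJ s β *ᵥ dv (tr β s) w = dv s (β w) := by
  induction w using FreeGroup.induction_on with
  | C1 => rw [dv_one, map_one, dv_one, mulVec_zero]
  | of j =>
    show mJ s β *ᵥ dv (tr β s) (of j) = dv s (β (of j))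
    rw [dv_of, mulVec_single_one]
    rfl
  | inv_of j ih =>
    have ih' : mJ s β *ᵥ dv (tr β s) (of j) = dv s (β (of j)) := ih
    show mJ s β *ᵥ dv (tr β s) (of j)⁻¹ = dv s (β (of j)⁻¹)
    rw [dv_inv, mulVec_neg, mulVec_smul, ih', map_inv, dv_inv, ch_tr]
  | mul a b ha hb =>
    rw [dv_mul, mulVec_add, mulVec_smul, ha, hb, map_mul, dv_mul, ch_tr]

lemma mJ_dv {s : ι → ℤˣ} {α : MulAut (FreeGroup ι)} (h : α ∈ St s) (w : FreeGroup ι) :
    mJ s α *ᵥ dv s w = dv s (α w) := by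
  have h1 := mJ_tr α s w
  rwa [tr_of_St h] at h1

lemma mJ_mul {s : ι → ℤˣ} {α β : MulAut (FreeGroup ι)} (h : α ∈ St s) :
    mJ s (α * β) = mJ s α * mJ s β := by
  ext k j
  show dv s (α (β (of j))) k = _
  rw [← mJ_dv h]
  rfl

lemma mJ_one (s : ι → ℤˣ) : mJ s (1 : MulAut (FreeGroup ι)) = 1 := by
  ext k j
  show dv s (of j) k = _
  rw [dv_of, Pi.single_apply, Matrix.one_apply]

lemma mJ_inv_mul {s : ι → ℤˣ} {α : MulAut (FreeGroup ι)} (h : α ∈ St s) :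
    mJ s α⁻¹ * mJ s α = 1 := by
  rw [← mJ_mul (inv_mem h), inv_mul_cancel, mJ_one]

lemma mJ_mul_inv {s : ι → ℤˣ} {α : MulAut (FreeGroup ι)} (h : α ∈ St s) :
    mJ s α * mJ s α⁻¹ = 1 := by
  rw [← mJ_mul h, mul_inv_cancel, mJ_one]

lemma mem_Fx_of_mJ {s : ι → ℤˣ} {α : MulAut (FreeGroup ι)} (h : α ∈ St s) (h1 : mJ s α = 1) :
    α ∈ Fx s := by
  intro w
  rw [← mJ_dv h, h1, one_mulVec]

lemma mJ_of_Fx {s : ι → ℤˣ} {α : MulAut (FreeGroup ι)} (h : α ∈ Fx s) : mJ s α = 1 := by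
  ext k j
  show dv s (α (of j)) k = _
  rw [mem_Fx.1 h, dv_of, Pi.single_apply, Matrix.one_apply]

lemma mem_Fm_of_mJ {s : ι → ℤˣ} {M : ℤ} {α : MulAut (FreeGroup ι)} (h : α ∈ St s)
    (h1 : ∀ i j, M ∣ mJ s α i j - (1 : Matrix ι ι ℤ) i j) : α ∈ Fm s M := by
  intro w k
  rw [← mJ_dv h]
  have h2 : (mJ s α *ᵥ dv s w) k - dv s w k =
      ∑ j, (mJ s α k j - (1 : Matrix ι ι ℤ) k j) * dv s w j := by
    have h3 : dv s w k = ∑ j, (1 : Matrix ι ι ℤ) k j * dv s w j := by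
      have := congrFun (one_mulVec (dv s w)) k
      exact this.symm
    conv_lhs => rw [h3]
    show ∑ j, mJ s α k j * dv s w j - _ = _
    rw [← Finset.sum_sub_distrib]
    apply Finset.sum_congr rfl
    intro j _
    ring
  rw [h2]
  apply Finset.dvd_sum
  intro j _
  exact Dvd.dvd.mul_right (h1 k j) _

lemma mJ_of_Fm {s : ι → ℤˣ} {M : ℤ} {α : MulAut (FreeGroup ι)} (h : α ∈ Fm s M) (i j : ι) :
    M ∣ mJ s α i j - (1 : Matrix ι ι ℤ) i j := by
  have h1 := mem_Fm.1 h (of j) i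
  rw [dv_of, Pi.single_apply] at h1
  rw [Matrix.one_apply]
  exact h1

/-- Conjugation. -/
lemma Fx_conj {β ν : MulAut (FreeGroup ι)} {s : ι → ℤˣ} (h : ν ∈ Fx (tr β s)) :
    β * ν * β⁻¹ ∈ Fx s := by
  intro w
  rw [MulAut.mul_apply, MulAut.mul_apply, ← mJ_tr, mem_Fx.1 h, mJ_tr, ← MulAut.mul_apply,
    mul_inv_cancel, MulAut.one_apply]

lemma St_conj {β ν : MulAut (FreeGroup ι)} {s : ι → ℤˣ} (h : ν ∈ St (tr β s)) :
    β * ν * β⁻¹ ∈ St s := by
  intro w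
  rw [MulAut.mul_apply, MulAut.mul_apply, ← ch_tr, mem_St.1 h, ch_tr, ← MulAut.mul_apply,
    mul_inv_cancel, MulAut.one_apply]

lemma Fm_conj {β ν : MulAut (FreeGroup ι)} {s : ι → ℤˣ} {M : ℤ} (h : ν ∈ Fm (tr β s) M) :
    β * ν * β⁻¹ ∈ Fm s M := by
  intro w k
  have h0 : dv s w = mJ s β *ᵥ dv (tr β s) (β⁻¹ w) := by
    rw [mJ_tr, ← MulAut.mul_apply, mul_inv_cancel, MulAut.one_apply]
  have h1 : dv s ((β * ν * β⁻¹) w) = mJ s β *ᵥ dv (tr β s) (ν (β⁻¹ w)) := by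
    rw [MulAut.mul_apply, MulAut.mul_apply, ← mJ_tr]
  rw [h0, h1, ← Pi.sub_apply, ← mulVec_sub]
  show M ∣ ∑ j, mJ s β k j * _
  apply Finset.dvd_sum
  intro j _
  exact Dvd.dvd.mul_left (mem_Fm.1 h (β⁻¹ w) j) _

lemma tr_tr (β γ : MulAut (FreeGroup ι)) (s : ι → ℤˣ) : tr γ (tr β s) = tr (β * γ) s := by
  funext j
  show ch (tr β s) (γ (of j)) = ch s ((β * γ) (of j))
  rw [ch_tr]
  rfl

lemma tr_one (s : ι → ℤˣ) : tr (1 : MulAut (FreeGroup ι)) s = s := by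
  funext j
  show ch s (of j) = s j
  exact ch_of s j

lemma tr_inj (β : MulAut (FreeGroup ι)) {s s' : ι → ℤˣ} (h : tr β s = tr β s') : s = s' := by
  have h1 := congrArg (tr β⁻¹) h
  rwa [tr_tr, tr_tr, mul_inv_cancel, tr_one, tr_one] at h1

/-- The elements of `N` which are trivial at all other characters. -/
def Nn (N : Subgroup (MulAut (FreeGroup ι))) (s : ι → ℤˣ) : Subgroup (MulAut (FreeGroup ι)) :=
  N ⊓ St s ⊓ ⨅ (s' : ι → ℤˣ) (_ : s' ≠ s), Fx s'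

lemma mem_Nn {N : Subgroup (MulAut (FreeGroup ι))} {s : ι → ℤˣ} {α : MulAut (FreeGroup ι)} :
    α ∈ Nn N s ↔ α ∈ N ∧ α ∈ St s ∧ ∀ s', s' ≠ s → α ∈ Fx s' := by
  unfold Nn
  rw [Subgroup.mem_inf, Subgroup.mem_inf]
  simp only [Subgroup.mem_iInf]
  tauto

lemma Nn_conj {N : Subgroup (MulAut (FreeGroup ι))} [hN : N.Normal] {β ν : MulAut (FreeGroup ι)}
    {s : ι → ℤˣ} (h : ν ∈ Nn N (tr β s)) : β * ν * β⁻¹ ∈ Nn N s := by
  rw [mem_Nn] at h ⊢
  refine ⟨hN.conj_mem _ h.1 _, St_conj h.2.1, fun s' hs' => Fx_conj (h.2.2 _ ?_)⟩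
  intro h1
  exact hs' (tr_inj β h1)

/-- The key property for a character. -/
def Key (N : Subgroup (MulAut (FreeGroup ι))) (M : ℤ) (s : ι → ℤˣ) : Prop :=
  ∀ α ∈ St s, α ∈ Fm s M → ∃ ν ∈ Nn N s, ∀ w, dv s (ν w) = dv s (α w)

lemma key_tr {N : Subgroup (MulAut (FreeGroup ι))} [hN : N.Normal] {M : ℤ} {s : ι → ℤˣ}
    (β : MulAut (FreeGroup ι)) (h : Key N M (tr β s)) : Key N M s := by
  intro α hα hα2
  have hs : tr β⁻¹ (tr β s) = s := by rw [tr_tr, mul_inv_cancel, tr_one]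
  have h1 : β⁻¹ * α * β⁻¹⁻¹ ∈ St (tr β s) := St_conj (by rw [hs]; exact hα)
  have h2 : β⁻¹ * α * β⁻¹⁻¹ ∈ Fm (tr β s) M := Fm_conj (by rw [hs]; exact hα2)
  obtain ⟨ν, hν, h3⟩ := h _ h1 h2
  refine ⟨β * ν * β⁻¹, Nn_conj hν, fun w => ?_⟩
  rw [MulAut.mul_apply, MulAut.mul_apply, ← mJ_tr, h3, mJ_tr, ← MulAut.mul_apply,
    ← MulAut.mul_apply]
  congr 2
  group

/-- The assembly. -/
lemma assemble {N : Subgroup (MulAut (FreeGroup ι))} {M : ℤ} (hK : ∀ s, Key N M s)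
    {α : MulAut (FreeGroup ι)} (h1 : ∀ s, α ∈ St s) (h2 : ∀ s, α ∈ Fm s M) :
    ∃ ν ∈ N, ∀ s, α * ν⁻¹ ∈ Fx s := by
  have h3 : ∀ S : Finset (ι → ℤˣ), ∃ ν ∈ N, (∀ s ∈ S, ∀ w, dv s (ν w) = dv s (α w)) ∧
      ∀ s, s ∉ S → ν ∈ Fx s := by
    intro S
    induction S using Finset.induction_on with
    | empty => exact ⟨1, one_mem _, fun s hs => absurd hs (Finset.notMem_empty s),
        fun s _ => one_mem _⟩
    | insert s S hs ih =>
      obtain ⟨ν, hν, h4, h5⟩ := ih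
      obtain ⟨μ, hμ, h6⟩ := hK s α (h1 s) (h2 s)
      rw [mem_Nn] at hμ
      refine ⟨ν * μ, mul_mem hν hμ.1, ?_, ?_⟩
      · intro s' hs' w
        rw [Finset.mem_insert] at hs'
        rw [MulAut.mul_apply]
        by_cases h7 : s' = s
        · subst h7
          rw [mem_Fx.1 (h5 s' hs), h6]
        · rw [h4 s' (hs'.resolve_left h7), ← mJ_dv (h1 s'), mem_Fx.1 (hμ.2.2 s' h7),
            mJ_dv (h1 s')]
      · intro s' hs'
        rw [Finset.mem_insert, not_or] at hs'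
        exact mul_mem (h5 s' hs'.2) (hμ.2.2 s' hs'.1)
  obtain ⟨ν, hν, h4, -⟩ := h3 Finset.univ
  refine ⟨ν, hν, fun s w => ?_⟩
  rw [MulAut.mul_apply, ← h4 s (Finset.mem_univ s), ← MulAut.mul_apply, mul_inv_cancel,
    MulAut.one_apply]

end Pool.Agent.H19W.CS
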