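import Pool.Agent.H19W.CS.Keys
import Pool.Agent.R569.CS.Main

/-!
# The congruence property for the kernel of `F_n → {±1}^n`
-/

set_option autoImplicit false
set_option linter.all false

namespace Pool.Agent.H19W.CS

open Pool.Agent.Helper460_OutF Pool.Agent.Helper460_CSP
open FreeGroup (of)
open Matrix hiding of zpow_neg
open scoped commutatorElement

variable {ι : Type} [DecidableEq ι] [Fintype ι]

lemma ker_char : (pr (ι := ι)).ker.Characteristic := by
  rw [Subgroup.characteristic_iff_le_comap]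
  intro φ w hw
  rw [Subgroup.mem_comap, mem_ker_iff]
  intro s
  show ch s (φ w) = 1
  rw [← ch_tr]
  exact mem_ker_iff.1 hw _

lemma ker_fi : (pr (ι := ι)).ker.FiniteIndex := by
  have : Finite (ι → ℤˣ) := inferInstance
  infer_instance

/-- The automorphisms preserving all derivatives act trivially on `F / Γ` and `Γ / [Γ, Γ]`. -/
lemma all_Fx {φ : MulAut (FreeGroup ι)} (h : ∀ s, φ ∈ Fx s) :
    (∀ x, φ x * x⁻¹ ∈ (pr (ι := ι)).ker) ∧
      ∀ x ∈ (pr (ι := ι)).ker, φ x * x⁻¹ ∈ ⁅(pr (ι := ι)).ker, (pr (ι := ι)).ker⁆ := by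
  constructor
  · intro x
    rw [mem_ker_iff]
    intro s
    rw [map_mul, map_inv, Fx_le_St s (h s) x, mul_inv_cancel]
  · intro x hx
    apply magnus
    intro s
    have hx1 := mem_ker_iff.1 hx s
    rw [dv_mul, mem_Fx.1 (h s), dv_inv, Fx_le_St s (h s) x, hx1, Units.val_one, one_smul, one_smul,
      add_neg_cancel]

/-- The congruence group of level `M` in the free group. -/
def Lev (M : ℤ) : Subgroup (FreeGroup ι) where
  carrier := {w | ∀ s, ch s w = 1 ∧ ∀ k, M ∣ dv s w k}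
  one_mem' := fun s => ⟨map_one _, fun k => by rw [dv_one]; exact dvd_zero _⟩
  mul_mem' := by
    intro a b ha hb s
    refine ⟨by rw [map_mul, (ha s).1, (hb s).1, one_mul], fun k => ?_⟩
    rw [dv_mul, (ha s).1, Units.val_one, one_smul]
    exact dvd_add ((ha s).2 k) ((hb s).2 k)
  inv_mem' := by
    intro a ha s
    refine ⟨by rw [map_inv, (ha s).1, inv_one], fun k => ?_⟩
    rw [dv_inv, (ha s).1, Units.val_one, one_smul]
    exact (dvd_neg).2 ((ha s).2 k)

lemma Lev_fi {M : ℤ} (hM : M ≠ 0) : (Lev M : Subgroup (FreeGroup ι)).FiniteIndex := by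
  have hne : NeZero M.natAbs := ⟨Int.natAbs_ne_zero.2 hM⟩
  let f : FreeGroup ι → (ι → ℤˣ) → ℤˣ × (ι → ZMod M.natAbs) :=
    fun w s => (ch s w, fun k => ((dv s w k : ℤ) : ZMod M.natAbs))
  have hf : ∀ a b, f a = f b → a⁻¹ * b ∈ (Lev M : Subgroup (FreeGroup ι)) := by
    intro a b h s
    have h1 : ch s a = ch s b := congrArg Prod.fst (congrFun h s)
    have h2 : ∀ k, ((dv s a k : ℤ) : ZMod M.natAbs) = ((dv s b k : ℤ) : ZMod M.natAbs) :=
      fun k => congrFun (congrArg Prod.snd (congrFun h s)) k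
    refine ⟨by rw [map_mul, map_inv, h1, inv_mul_cancel], fun k => ?_⟩
    have h3 := h2 k
    rw [← sub_eq_zero, ← Int.cast_sub, ZMod.intCast_zmod_eq_zero_iff_dvd, Int.natCast_natAbs,
      abs_dvd] at h3
    have h4 : dv s (a⁻¹ * b) k = -((ch s a : ℤ) * (dv s a k - dv s b k)) := by
      have h5 : (((ch s a)⁻¹ : ℤˣ) : ℤ) = (ch s a : ℤ) := by
        rcases Int.units_eq_one_or (ch s a) with h | h <;> rw [h] <;> decide
      rw [dv_mul, dv_inv, map_inv, h5, Pi.add_apply, Pi.neg_apply, Pi.smul_apply, Pi.smul_apply,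
        smul_eq_mul, smul_eq_mul]
      ring
    rw [h4]
    exact (dvd_neg).2 (Dvd.dvd.mul_left h3 _)
  have hfin : Finite (FreeGroup ι ⧸ (Lev M : Subgroup (FreeGroup ι))) := by
    have : Function.Injective (fun q : FreeGroup ι ⧸ (Lev M : Subgroup (FreeGroup ι)) =>
        f q.out) := by
      intro p q h
      have h1 := hf _ _ h
      rw [← QuotientGroup.eq, QuotientGroup.out_eq', QuotientGroup.out_eq'] at h1
      exact h1
    exact Finite.of_injective _ this
  exact Subgroup.finiteIndex_of_finite_quotient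

/-- **The congruence property** for subgroups containing the automorphisms acting trivially on
`F / Γ` and on `Γ / [Γ, Γ]`. -/
theorem main {n : ℕ} (V : Subgroup (MulAut (FreeGroup (Fin (n + 3 + 1))))) (hV : V.FiniteIndex)
    (h : ∀ φ : MulAut (FreeGroup (Fin (n + 3 + 1))),
      (∀ x, φ x * x⁻¹ ∈ (pr (ι := Fin (n + 3 + 1))).ker) →
      (∀ x ∈ (pr (ι := Fin (n + 3 + 1))).ker,
        φ x * x⁻¹ ∈ ⁅(pr (ι := Fin (n + 3 + 1))).ker, (pr (ι := Fin (n + 3 + 1))).ker⁆) → φ ∈ V) :
    ∃ K : Subgroup (FreeGroup (Fin (n + 3 + 1))), K.Characteristic ∧ K.FiniteIndex ∧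
      ∀ φ : MulAut (FreeGroup (Fin (n + 3 + 1))), (∀ x, φ x * x⁻¹ ∈ K) → φ ∈ V := by
  have hchar := ker_char (ι := Fin (n + 3 + 1))
  let N := V.normalCore
  have hN : N.Normal := V.normalCore_normal
  have hNf : N.FiniteIndex := inferInstance
  have hNI : ∀ φ : MulAut (FreeGroup (Fin (n + 3 + 1))), (∀ s, φ ∈ Fx s) → φ ∈ N := by
    intro φ hφ
    have h1 := all_Fx hφ
    intro β
    apply h
    · intro x
      rw [mem_ker_iff]
      intro s
      have h2 : β * φ * β⁻¹ ∈ St s := St_conj (Fx_le_St _ (hφ _))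
      rw [map_mul, map_inv, h2 x, mul_inv_cancel]
    · intro x hx
      apply magnus
      intro s
      have h2 : β * φ * β⁻¹ ∈ Fx s := Fx_conj (hφ _)
      have hx1 := mem_ker_iff.1 hx s
      rw [dv_mul, mem_Fx.1 h2, dv_inv, Fx_le_St s h2 x, hx1, Units.val_one, one_smul, one_smul,
        add_neg_cancel]
  have hm0 : N.index ≠ 0 := hNf.index_ne_zero
  have hm : ∀ x : MulAut (FreeGroup (Fin (n + 3 + 1))), x ^ N.index ∈ N :=
    fun x => N.pow_index_mem x
  set M : ℤ := 4 ^ Fintype.card (Fin (n + 3 + 1)) * (N.index : ℤ) with hMdef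
  have hM : M ≠ 0 := by
    rw [hMdef]
    have : (N.index : ℤ) ≠ 0 := by exact_mod_cast hm0
    positivity
  have hfi := Lev_fi (ι := Fin (n + 3 + 1)) hM
  obtain ⟨K, hK1, hK2, hK3⟩ : ∃ K : Subgroup (FreeGroup (Fin (n + 3 + 1))), K.Characteristic ∧
      K.FiniteIndex ∧ K ≤ Lev M := Pool.Agent.R569.CS.charCore (Lev M) hfi
  refine ⟨K, hK1, hK2, fun φ hφ => ?_⟩
  have hS : ∀ s, φ ∈ St s := by
    intro s w
    have h1 := (hK3 (hφ w) s).1
    rw [map_mul, map_inv, mul_inv_eq_one] at h1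
    exact h1
  have hF : ∀ s, φ ∈ Fm s M := by
    intro s w k
    have h1 := (hK3 (hφ w) s)
    have h2 : dv s (φ w) = dv s (φ w * w⁻¹) + dv s w := by
      have : φ w = (φ w * w⁻¹) * w := by group
      conv_lhs => rw [this]
      rw [dv_mul, h1.1, Units.val_one, one_smul]
    rw [h2, Pi.add_apply, add_sub_cancel_right]
    exact h1.2 k
  obtain ⟨ν, hν, h5⟩ := assemble (key_all hm hm0) hS hF
  have h6 := mul_mem (hNI _ h5) hν
  rw [inv_mul_cancel_right] at h6
  exact V.normalCore_le h6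

end Pool.Agent.H19W.CS
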