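import Pool.Agent.H19W.CS.Aut

/-!
# Elementary automorphisms concentrated at one character
-/

set_option autoImplicit false
set_option linter.all false

namespace Pool.Agent.H19W.CS

open Pool.Agent.Helper460_OutF Pool.Agent.Helper460_CSP
open FreeGroup (of)
open Matrix hiding of zpow_neg
open scoped commutatorElement

variable {ι : Type} [DecidableEq ι] [Fintype ι]

lemma dv_zpow {s : ι → ℤˣ} {w : FreeGroup ι} (h : ch s w = 1) (t : ℤ) :
    dv s (w ^ t) = t • dv s w := by
  have h1 : ∀ n : ℕ, dv s (w ^ n) = (n : ℤ) • dv s w := by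
    intro n
    induction n with
    | zero => rw [pow_zero, dv_one, Nat.cast_zero, zero_smul]
    | succ n ih =>
      rw [pow_succ, dv_mul, map_pow, h, one_pow, Units.val_one, one_smul, ih, Nat.cast_succ,
        add_smul, one_smul]
  obtain ⟨n, rfl | rfl⟩ := t.eq_nat_or_neg
  · rw [zpow_natCast, h1]
  · rw [zpow_neg, zpow_natCast, dv_inv, map_pow, h, one_pow, Units.val_one, one_smul, h1, neg_smul]

lemma dv_conj {s : ι → ℤˣ} {w : FreeGroup ι} (h : ch s w = 1) (x : FreeGroup ι) :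
    dv s (x * w * x⁻¹) = (ch s x : ℤ) • dv s w := by
  rw [dv_mul, dv_mul, dv_inv, map_mul, h, mul_one]
  have h2 : (ch s x : ℤ) * (ch s x : ℤ) = 1 := by
    rcases Int.units_eq_one_or (ch s x) with h | h <;> rw [h] <;> decide
  rw [smul_neg, smul_smul, h2, one_smul]
  abel

/-- A word without `x_i`, whose derivatives vanish at all characters which differ from `s`
outside `i`. -/
lemma exists_word (s : ι → ℤˣ) (i l : ι) (hl : l ≠ i) (T : Finset ι) (hT : i ∉ T) :
    ∃ w : FreeGroup ι, kil i w = w ∧ (∀ s' : ι → ℤˣ, ch s' w = 1) ∧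
      ∀ s' : ι → ℤˣ, dv s' w =
        ((1 + (s' l : ℤ)) * ∏ j ∈ T, (1 + (s' j : ℤ) * (s j : ℤ))) • (Pi.single l 1 : ι → ℤ) := by
  induction T using Finset.induction_on with
  | empty =>
    refine ⟨of l * of l, by rw [map_mul, kil_ne hl], fun s' => ?_, fun s' => ?_⟩
    · rw [map_mul, ch_of]
      exact Int.units_mul_self (s' l)
    · rw [dv_mul, dv_of, ch_of, Finset.prod_empty, mul_one, add_smul, one_smul]
  | insert j T hj ih =>
    rw [Finset.mem_insert, not_or] at hT
    obtain ⟨w, h1, h2, h3⟩ := ih hT.2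
    refine ⟨w * (of j * w ^ (s j : ℤ) * (of j)⁻¹), ?_, fun s' => ?_, fun s' => ?_⟩
    · rw [map_mul, map_mul, map_mul, map_inv, map_zpow, h1, kil_ne (Ne.symm hT.1)]
    · rw [map_mul, map_mul, map_mul, map_inv, map_zpow, h2, _root_.one_zpow, mul_one, mul_inv_cancel,
        mul_one]
    · have h4 : ch s' (w ^ (s j : ℤ)) = 1 := by rw [map_zpow, h2, _root_.one_zpow]
      rw [dv_mul, h2, Units.val_one, one_smul, dv_conj h4, dv_zpow (h2 s'), h3 s', ch_of,
        Finset.prod_insert hj, smul_smul, smul_smul, ← add_smul]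
      congr 1
      ring

/-- The words at the end. -/
lemma exists_word' (s : ι → ℤˣ) (i l : ι) (hl : l ≠ i) (hs : s l = 1) :
    ∃ w : FreeGroup ι, kil i w = w ∧ (∀ s' : ι → ℤˣ, ch s' w = 1) ∧
      dv s w = ((2 : ℤ) ^ Fintype.card ι) • (Pi.single l 1 : ι → ℤ) ∧
      ∀ s' : ι → ℤˣ, (∃ j, j ≠ i ∧ s' j ≠ s j) → dv s' w = 0 := by
  obtain ⟨w, h1, h2, h3⟩ := exists_word s i l hl (Finset.univ.erase i) (Finset.notMem_erase i _)
  refine ⟨w, h1, h2, ?_, ?_⟩
  · rw [h3 s, hs]
    congr 1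
    have h4 : ∀ j ∈ Finset.univ.erase i, (1 : ℤ) + (s j : ℤ) * (s j : ℤ) = 2 := by
      intro j _
      rcases Int.units_eq_one_or (s j) with h | h <;> rw [h] <;> decide
    have hc : 0 < Fintype.card ι := Fintype.card_pos_iff.2 ⟨i⟩
    rw [Finset.prod_congr rfl h4, Finset.prod_const, Finset.card_erase_of_mem (Finset.mem_univ i),
      Finset.card_univ, Units.val_one]
    show (2 : ℤ) * 2 ^ (Fintype.card ι - 1) = _
    rw [← pow_succ']
    congr 1
    omega
  · rintro s' ⟨j, hj, hj2⟩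
    rw [h3 s', Finset.prod_eq_zero (Finset.mem_erase.2 ⟨hj, Finset.mem_univ j⟩), mul_zero, zero_smul]
    rcases Int.units_eq_one_or (s j) with h | h <;> rcases Int.units_eq_one_or (s' j) with h' | h'
    · exact absurd (h'.trans h.symm) hj2
    · rw [h, h']; decide
    · rw [h, h']; decide
    · exact absurd (h'.trans h.symm) hj2

/-- A transvection is in the stabilisers. -/
lemma rr_St {i : ι} {w : FreeGroup ι} (h2 : kil i w = w) (s : ι → ℤˣ) (h : ch s w = 1) :
    rr i w ∈ St s := by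
  intro x
  rw [← ch_tr]
  have : tr (rr i w) s = s := by
    funext j
    show ch s (rr i w (of j)) = s j
    by_cases hj : j = i
    · subst hj
      rw [rr_self, h2, map_mul, h, mul_one, ch_of]
    · rw [rr_ne hj, ch_of]
  rw [this]

/-- The matrix of a transvection. -/
lemma mJ_rr {i l : ι} (hl : l ≠ i) {w : FreeGroup ι} (h2 : kil i w = w) {s : ι → ℤˣ} {c : ℤ}
    (h3 : dv s w = c • (Pi.single l 1 : ι → ℤ)) :
    mJ s (rr i w) = transvection l i ((s i : ℤ) * c) := by
  ext k j
  show dv s (rr i w (of j)) k = _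
  unfold transvection
  rw [Matrix.add_apply, Matrix.one_apply, Matrix.single_apply]
  by_cases hj : j = i
  · subst hj
    rw [rr_self, h2, dv_mul, h3, dv_of, ch_of, Pi.add_apply, Pi.single_apply, Pi.smul_apply,
      Pi.smul_apply, Pi.single_apply]
    by_cases hk : k = l
    · subst hk; simp
    · have hk' : ¬ (l = k) := fun h2 => hk h2.symm
      simp [hk, hk']
  · rw [rr_ne hj, dv_of, Pi.single_apply, if_neg (c := l = k ∧ i = j) (fun h2 => hj h2.2.symm),
      add_zero]

lemma rr_Fx {i : ι} {w : FreeGroup ι} (h2 : kil i w = w) {s : ι → ℤˣ} (h : ch s w = 1)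
    (h3 : dv s w = 0) : rr i w ∈ Fx s := by
  apply mem_Fx_of_mJ (rr_St h2 s h)
  ext k j
  show dv s (rr i w (of j)) k = _
  rw [Matrix.one_apply]
  by_cases hj : j = i
  · subst hj
    rw [rr_self, h2, dv_mul, h3, smul_zero, add_zero, dv_of, Pi.single_apply]
  · rw [rr_ne hj, dv_of, Pi.single_apply]

/-- The commutator of two elementary matrices. -/
lemma comm_trans {i j l : ι} (hij : i ≠ j) (hil : i ≠ l) (hjl : j ≠ l) (a b : ℤ) :
    transvection l i a * transvection j l b * transvection l i (-a) * transvection j l (-b) =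
      transvection j i (-(a * b)) := by
  unfold transvection
  have e1 : (Matrix.single l i a : Matrix ι ι ℤ) * Matrix.single j l b = 0 :=
    Matrix.single_mul_single_of_ne a l i j hij b
  have e2 : (Matrix.single j l b : Matrix ι ι ℤ) * Matrix.single l i a = Matrix.single j i (b * a) :=
    Matrix.single_mul_single_same b j l i a
  have e3 : (Matrix.single l i a : Matrix ι ι ℤ) * Matrix.single l i a = 0 :=
    Matrix.single_mul_single_of_ne a l i l hil a
  have e4 : (Matrix.single j l b : Matrix ι ι ℤ) * Matrix.single j l b = 0 :=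
    Matrix.single_mul_single_of_ne b j l j hjl.symm b
  have n1 : (Matrix.single l i (-a) : Matrix ι ι ℤ) = - Matrix.single l i a := by
    rw [Matrix.single_neg]
  have n2 : (Matrix.single j l (-b) : Matrix ι ι ℤ) = - Matrix.single j l b := by
    rw [Matrix.single_neg]
  have n3 : (Matrix.single j i (-(a * b)) : Matrix ι ι ℤ) = - Matrix.single j i (b * a) := by
    rw [Matrix.single_neg, mul_comm]
  rw [n1, n2, n3]
  generalize (Matrix.single l i a : Matrix ι ι ℤ) = A at *
  generalize (Matrix.single j l b : Matrix ι ι ℤ) = B at *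
  generalize (Matrix.single j i (b * a) : Matrix ι ι ℤ) = C at *
  calc (1 + A) * (1 + B) * (1 + -A) * (1 + -B) = (1 + A + B + A * B) * (1 - A - B + A * B) := by
        noncomm_ring
    _ = (1 + A + B) * (1 - A - B) := by rw [e1, add_zero, add_zero]
    _ = 1 - A * A - A * B - B * A - B * B := by noncomm_ring
    _ = 1 + -C := by rw [e1, e2, e3, e4]; abel

/-- `Fx s` is normalised by `St s`. -/
lemma Fx_conj' {s : ι → ℤˣ} {β ν : MulAut (FreeGroup ι)} (h : ν ∈ Fx s) (hβ : β ∈ St s) :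
    β * ν * β⁻¹ ∈ Fx s := by
  apply Fx_conj
  rwa [tr_of_St hβ]

/-- **The isolated elementary automorphisms.** -/
lemma exists_elem {N : Subgroup (MulAut (FreeGroup ι))} [hN : N.Normal] {m : ℕ}
    (hm : ∀ x : MulAut (FreeGroup ι), x ^ m ∈ N) {s : ι → ℤˣ} {i j l : ι} (hij : i ≠ j)
    (hil : i ≠ l) (hjl : j ≠ l) (hj : s j = 1) (hl : s l = 1) :
    ∃ ν ∈ Nn N s, mJ s ν = transvection j i (4 ^ Fintype.card ι * (m : ℤ)) := by
  obtain ⟨w, w1, w2, w3, w4⟩ := exists_word' s i l hil.symm hl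
  obtain ⟨u, u1, u2, u3, u4⟩ := exists_word' s l j hjl hj
  have hw : kil i (w ^ m) = w ^ m := by rw [map_pow, w1]
  have A1 : rr i (w ^ m) = rr i w ^ m := map_pow _ _ _
  have hA : ∀ s', rr i (w ^ m) ∈ St s' := fun s' => rr_St hw s' (by rw [map_pow, w2, one_pow])
  have hB : ∀ s', rr l u ∈ St s' := fun s' => rr_St u1 s' (u2 s')
  have hNA : rr i (w ^ m) ∈ N := by rw [A1]; exact hm _
  have hdw : dv s (w ^ m) = ((m : ℤ) * 2 ^ Fintype.card ι) • (Pi.single l 1 : ι → ℤ) := by
    rw [← zpow_natCast, dv_zpow (w2 s), w3, smul_smul]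
  set A := rr i (w ^ m) with hAdef
  set B := rr l u with hBdef
  have key : A * B * A⁻¹ * B⁻¹ ∈ Nn N s := by
    rw [mem_Nn]
    refine ⟨?_, ?_, ?_⟩
    · have h1 : A * B * A⁻¹ * B⁻¹ = A * (B * A⁻¹ * B⁻¹) := by group
      rw [h1]
      exact mul_mem hNA (hN.conj_mem _ (inv_mem hNA) _)
    · exact mul_mem (mul_mem (mul_mem (hA s) (hB s)) (inv_mem (hA s))) (inv_mem (hB s))
    · intro s' hs'
      by_cases h1 : ∃ k, k ≠ i ∧ s' k ≠ s k
      · have h2 : A ∈ Fx s' := rr_Fx hw (by rw [map_pow, w2, one_pow])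
          (by rw [← zpow_natCast, dv_zpow (w2 s'), w4 s' h1, smul_zero])
        have h3 : A * B * A⁻¹ * B⁻¹ = A * (B * A⁻¹ * B⁻¹) := by group
        rw [h3]
        exact mul_mem h2 (Fx_conj' (inv_mem h2) (hB s'))
      · push_neg at h1
        have h2 : ∃ k, k ≠ l ∧ s' k ≠ s k := by
          refine ⟨i, hil, fun h3 => hs' ?_⟩
          funext k
          by_cases hk : k = i
          · rw [hk, h3]
          · exact h1 k hk
        have h3 : B ∈ Fx s' := rr_Fx u1 (u2 s') (u4 s' h2)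
        exact mul_mem (Fx_conj' h3 (hA s')) (inv_mem h3)
  have mA1 : mJ s A = transvection l i ((s i : ℤ) * ((m : ℤ) * 2 ^ Fintype.card ι)) :=
    mJ_rr hil.symm hw hdw
  have mB1 : mJ s B = transvection j l ((s l : ℤ) * 2 ^ Fintype.card ι) := mJ_rr hjl u1 u3
  have inv_tr : ∀ (p q : ι) (h : p ≠ q) (c : ℤ) (X : MulAut (FreeGroup ι)), X ∈ St s →
      mJ s X = transvection p q c → mJ s X⁻¹ = transvection p q (-c) := by
    intro p q h c X hX hX2
    have h1 := mJ_inv_mul hX
    rw [hX2] at h1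
    calc mJ s X⁻¹ = mJ s X⁻¹ * (transvection p q c * transvection p q (-c)) := by
          rw [transvection_mul_transvection_same p q h, add_neg_cancel, transvection_zero,
            Matrix.mul_one]
      _ = transvection p q (-c) := by rw [← Matrix.mul_assoc, h1, Matrix.one_mul]
  have mK : mJ s (A * B * A⁻¹ * B⁻¹) = transvection j i
      (-(((s i : ℤ) * ((m : ℤ) * 2 ^ Fintype.card ι)) * ((s l : ℤ) * 2 ^ Fintype.card ι))) := by
    rw [mJ_mul (mul_mem (mul_mem (hA s) (hB s)) (inv_mem (hA s))), mJ_mul (mul_mem (hA s) (hB s)),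
      mJ_mul (hA s), inv_tr _ _ hil.symm _ A (hA s) mA1, inv_tr _ _ hjl _ B (hB s) mB1, mA1, mB1,
      comm_trans hij hil hjl]
  rcases Int.units_eq_one_or (s i) with h | h
  · refine ⟨(A * B * A⁻¹ * B⁻¹)⁻¹, inv_mem key, ?_⟩
    rw [inv_tr _ _ hij.symm _ _ (mem_Nn.1 key).2.1 mK, h, hl]
    congr 1
    have : (4 : ℤ) ^ Fintype.card ι = 2 ^ Fintype.card ι * 2 ^ Fintype.card ι := by
      rw [← mul_pow]; norm_num
    rw [this]
    push_cast
    ring
  · refine ⟨A * B * A⁻¹ * B⁻¹, key, ?_⟩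
    rw [mK, h, hl]
    congr 1
    have : (4 : ℤ) ^ Fintype.card ι = 2 ^ Fintype.card ι * 2 ^ Fintype.card ι := by
      rw [← mul_pow]; norm_num
    rw [this]
    push_cast
    ring

end Pool.Agent.H19W.CS
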