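import Pool.Agent.H19W.CS.Iso
import Pool.Agent.H185.ZM.Euc

/-!
# The congruence property at a single character
-/

set_option autoImplicit false
set_option linter.all false

namespace Pool.Agent.H19W.CS

open Pool.Agent.Helper460_OutF Pool.Agent.Helper460_CSP
open Pool.Agent.Helper156.OF (SP toAut toAut_gl gl nv gl_nv gl_true Lt SP.map_nv)
open FreeGroup (of)
open Matrix hiding of zpow_neg
open scoped commutatorElement

lemma det_one_of_cong {κ : Type} [DecidableEq κ] [Fintype κ] {A B : Matrix κ κ ℤ} (hAB : A * B = 1)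
    {M : ℤ} (hM : 3 ≤ M) (h : ∀ i j, M ∣ A i j - (1 : Matrix κ κ ℤ) i j) : A.det = 1 := by
  have h1 : A.det * B.det = 1 := by rw [← det_mul, hAB, det_one]
  have h2 : A.det = 1 ∨ A.det = -1 := Int.isUnit_iff.1 (IsUnit.of_mul_eq_one _ h1)
  rcases h2 with h2 | h2
  · exact h2
  · exfalso
    have h3 : M ∣ A.det - 1 := by
      rw [← Ideal.Quotient.eq_zero_iff_dvd, map_sub, map_one, sub_eq_zero, RingHom.map_det]
      have h4 : (Ideal.Quotient.mk (Ideal.span {M})).mapMatrix A = 1 := by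
        ext i j
        rw [RingHom.mapMatrix_apply, Matrix.map_apply]
        have h5 := h i j
        rw [← Ideal.Quotient.eq_zero_iff_dvd, map_sub, sub_eq_zero] at h5
        rw [h5, Matrix.one_apply, Matrix.one_apply]
        split_ifs
        · rw [map_one]
        · rw [map_zero]
      rw [h4, det_one]
    rw [h2] at h3
    have h4 := Int.le_of_dvd (by norm_num : (0 : ℤ) < 2) (by
      have := (dvd_neg (a := M)).2 h3
      norm_num at this
      exact this)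
    omega

section triv

variable {ι : Type} [DecidableEq ι] [Fintype ι]

lemma ch_triv (w : FreeGroup ι) : ch (1 : ι → ℤˣ) w = 1 := by
  show cs 1 (pr w) = 1
  rw [cs_apply]
  apply Finset.prod_eq_one
  intro i _
  rw [if_neg]
  show ¬ ((1 : ℤˣ) = -1)
  decide

lemma dv_triv (w : FreeGroup ι) : dv (1 : ι → ℤˣ) w = xv w := by
  induction w using FreeGroup.induction_on with
  | C1 => rw [dv_one, xv_one]
  | of j => exact (dv_of 1 j).trans (xv_of j).symm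
  | inv_of j ih =>
    show dv (1 : ι → ℤˣ) (of j)⁻¹ = xv (of j)⁻¹
    rw [dv_inv, ch_triv, Units.val_one, one_smul, xv_inv, dv_of, xv_of]
  | mul a b ha hb => rw [dv_mul, ch_triv, Units.val_one, one_smul, xv_mul, ha, hb]

lemma mJ_triv (α : MulAut (FreeGroup ι)) : mJ (1 : ι → ℤˣ) α = mA α := by
  ext k j
  show dv 1 (α (of j)) k = xv (α (of j)) k
  rw [dv_triv]

lemma St_triv (α : MulAut (FreeGroup ι)) : α ∈ St (1 : ι → ℤˣ) := by
  intro w
  rw [ch_triv, ch_triv]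

/-- Matrices which lift. -/
def L1 (N : Subgroup (MulAut (FreeGroup ι))) : Subgroup (SpecialLinearGroup ι ℤ) where
  carrier := {A | ∃ β ∈ Nn N 1, mA β = mt A}
  mul_mem' := by
    rintro A B ⟨β, hβ, h1⟩ ⟨γ, hγ, h2⟩
    exact ⟨β * γ, mul_mem hβ hγ, by rw [mA_mul, h1, h2, mt_mul]⟩
  one_mem' := ⟨1, one_mem _, by rw [mA_one, mt_one]⟩
  inv_mem' := by
    rintro A ⟨β, hβ, h1⟩
    exact ⟨β⁻¹, inv_mem hβ, mt_inv_of h1⟩

instance L1_normal (N : Subgroup (MulAut (FreeGroup ι))) [hN : N.Normal] : (L1 N).Normal := by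
  refine ⟨?_⟩
  rintro A ⟨β, hβ, h1⟩ B
  obtain ⟨γ, hγ⟩ := sl_surj B
  refine ⟨γ * β * γ⁻¹, Nn_conj (by rw [tr_of_St (St_triv γ)]; exact hβ), ?_⟩
  rw [mA_mul, mA_mul, h1, hγ, mt_inv_of hγ, mt_mul, mt_mul]

lemma exists_third {n : ℕ} (i j : Fin (n + 3)) : ∃ l, i ≠ l ∧ j ≠ l := by
  by_contra h
  push Not at h
  have h0 := h 0
  have h1 := h 1
  have h2 := h 2
  have e0 : (0 : Fin (n + 3)).val = 0 := rfl
  have e1 : (1 : Fin (n + 3)).val = 1 := Fin.val_one (n + 1)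
  have e2 : (2 : Fin (n + 3)).val = 2 := Fin.val_two
  by_cases hi0 : i = 0
  · have := h1 (by rw [hi0]; intro h; rw [Fin.ext_iff, e0, e1] at h; omega)
    have := h2 (by rw [hi0]; intro h; rw [Fin.ext_iff, e0, e2] at h; omega)
    have h5 : (1 : Fin (n + 3)) = 2 := by rw [← ‹j = 1›, ← ‹j = 2›]
    rw [Fin.ext_iff, e1, e2] at h5
    omega
  · have a0 := h0 hi0
    by_cases hi1 : i = 1
    · have a2 := h2 (by rw [hi1]; intro h; rw [Fin.ext_iff, e1, e2] at h; omega)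
      have h5 : (0 : Fin (n + 3)) = 2 := by rw [← a0, ← a2]
      rw [Fin.ext_iff, e0, e2] at h5
      omega
    · have a1 := h1 hi1
      have h5 : (0 : Fin (n + 3)) = 1 := by rw [← a0, ← a1]
      rw [Fin.ext_iff, e0, e1] at h5
      omega

theorem key_triv {n : ℕ} {N : Subgroup (MulAut (FreeGroup (Fin (n + 3))))} [hN : N.Normal] {m : ℕ}
    (hm : ∀ x : MulAut (FreeGroup (Fin (n + 3))), x ^ m ∈ N) (hm0 : m ≠ 0) :
    Key N (4 ^ Fintype.card (Fin (n + 3)) * (m : ℤ)) 1 := by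
  intro α hα hα2
  set M : ℤ := 4 ^ Fintype.card (Fin (n + 3)) * (m : ℤ) with hMdef
  have hM3 : 3 ≤ M := by
    have h1 : (4 : ℤ) ≤ 4 ^ Fintype.card (Fin (n + 3)) := by
      rw [Fintype.card_fin]
      calc (4 : ℤ) = 4 ^ 1 := by norm_num
        _ ≤ 4 ^ (n + 3) := pow_le_pow_right₀ (by norm_num) (by omega)
    have h2 : (1 : ℤ) ≤ m := by exact_mod_cast Nat.one_le_iff_ne_zero.2 hm0
    nlinarith
  have hc : ∀ i j, M ∣ mA α i j - (1 : Matrix _ _ ℤ) i j := by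
    intro i j
    rw [← mJ_triv]
    exact mJ_of_Fm hα2 i j
  have hdet : (mA α).det = 1 := det_one_of_cong (B := mA α⁻¹)
    (by rw [← mA_mul, mul_inv_cancel, mA_one]) hM3 hc
  have h1 : (⟨mA α, hdet⟩ : SpecialLinearGroup (Fin (n + 3)) ℤ) ∈ El (Fin (n + 3)) M :=
    bls (by omega) n _ hc
  have h2 : El (Fin (n + 3)) M ≤ L1 N := by
    apply El_le
    intro i j hij
    obtain ⟨l, hl1, hl2⟩ := exists_third j i
    obtain ⟨ν, hν, h3⟩ := exists_elem (N := N) hm (s := 1) hij.symm hl1 hl2 rfl rfl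
    refine ⟨ν, hν, ?_⟩
    rw [← mJ_triv, h3]
    rfl
  obtain ⟨ν, hν, h3⟩ := h2 h1
  refine ⟨ν, hν, fun w => ?_⟩
  rw [← mJ_dv (St_triv ν), ← mJ_dv (St_triv α), mJ_triv, mJ_triv, h3]
  rfl

end triv

section blk

variable {k : ℕ}

/-- The character which is `-1` on the first generator only. -/
def s0 (k : ℕ) : Fin (k + 1) → ℤˣ := Fin.cons (-1) (fun _ => 1)

lemma s0_zero : s0 k 0 = -1 := rfl

lemma s0_succ (i : Fin k) : s0 k i.succ = 1 := rfl

lemma dv_zero' (w : FreeGroup (Fin (k + 1))) : dv (s0 k) w 0 * (-2) = (ch (s0 k) w : ℤ) - 1 := by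
  have h := dv_fund (s0 k) w
  rw [Fin.sum_univ_succ] at h
  simp only [s0_succ, s0_zero, Units.val_one, sub_self, mul_zero, Finset.sum_const_zero,
    add_zero, Units.val_neg] at h
  norm_num at h ⊢
  linarith

lemma dv_zero_St {α : MulAut (FreeGroup (Fin (k + 1)))} (h : α ∈ St (s0 k))
    (w : FreeGroup (Fin (k + 1))) : dv (s0 k) (α w) 0 = dv (s0 k) w 0 := by
  have h1 := dv_zero' (α w)
  have h2 := dv_zero' w
  rw [h w, ← h2] at h1
  linarith

lemma mJ_zero_succ {α : MulAut (FreeGroup (Fin (k + 1)))} (h : α ∈ St (s0 k)) (j : Fin k) :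
    mJ (s0 k) α 0 j.succ = 0 := by
  show dv (s0 k) (α (of j.succ)) 0 = 0
  rw [dv_zero_St h, dv_of, Pi.single_eq_of_ne (Fin.succ_ne_zero j).symm]

lemma mJ_zero_zero {α : MulAut (FreeGroup (Fin (k + 1)))} (h : α ∈ St (s0 k)) :
    mJ (s0 k) α 0 0 = 1 := by
  show dv (s0 k) (α (of 0)) 0 = 1
  rw [dv_zero_St h, dv_of, Pi.single_eq_same]

/-- The lower block. -/
noncomputable def Bk (α : MulAut (FreeGroup (Fin (k + 1)))) : Matrix (Fin k) (Fin k) ℤ :=
  fun i j => mJ (s0 k) α i.succ j.succ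

lemma Bk_mul {α β : MulAut (FreeGroup (Fin (k + 1)))} (hα : α ∈ St (s0 k)) (hβ : β ∈ St (s0 k)) :
    Bk (α * β) = Bk α * Bk β := by
  ext i j
  show mJ (s0 k) (α * β) i.succ j.succ = _
  rw [mJ_mul hα, Matrix.mul_apply, Fin.sum_univ_succ, mJ_zero_succ hβ, mul_zero, zero_add]
  rfl

lemma Bk_one : Bk (1 : MulAut (FreeGroup (Fin (k + 1)))) = 1 := by
  ext i j
  show mJ (s0 k) 1 i.succ j.succ = _
  rw [mJ_one, Matrix.one_apply, Matrix.one_apply]
  simp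

lemma Bk_inv_of {β : MulAut (FreeGroup (Fin (k + 1)))} (hβ : β ∈ St (s0 k))
    {A : SpecialLinearGroup (Fin k) ℤ} (h : Bk β = mt A) : Bk β⁻¹ = mt A⁻¹ := by
  calc Bk β⁻¹ = Bk β⁻¹ * (mt A * mt A⁻¹) := by
        rw [← mt_mul, mul_inv_cancel, mt_one, Matrix.mul_one]
    _ = (Bk β⁻¹ * Bk β) * mt A⁻¹ := by rw [h, Matrix.mul_assoc]
    _ = mt A⁻¹ := by rw [← Bk_mul (inv_mem hβ) hβ, inv_mul_cancel, Bk_one, Matrix.one_mul]

/-- The matrices which lift to the stabiliser. -/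
def Lf (k : ℕ) : Subgroup (SpecialLinearGroup (Fin k) ℤ) where
  carrier := {A | ∃ β ∈ St (s0 k), Bk β = mt A}
  mul_mem' := by
    rintro A B ⟨β, hβ, h1⟩ ⟨γ, hγ, h2⟩
    exact ⟨β * γ, mul_mem hβ hγ, by rw [Bk_mul hβ hγ, h1, h2, mt_mul]⟩
  one_mem' := ⟨1, one_mem _, by rw [Bk_one, mt_one]⟩
  inv_mem' := by
    rintro A ⟨β, hβ, h1⟩
    exact ⟨β⁻¹, inv_mem hβ, Bk_inv_of hβ h1⟩

lemma Bk_of_trans {β : MulAut (FreeGroup (Fin (k + 1)))} {i j : Fin k} {c : ℤ}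
    (h : mJ (s0 k) β = transvection i.succ j.succ c) : Bk β = transvection i j c := by
  ext p q
  show mJ (s0 k) β p.succ q.succ = _
  rw [h]
  unfold transvection
  rw [Matrix.add_apply, Matrix.add_apply, Matrix.one_apply, Matrix.one_apply, Matrix.single_apply,
    Matrix.single_apply]
  simp

lemma Lf_top (k : ℕ) : Lf k = ⊤ := by
  rw [eq_top_iff, ← Pool.Agent.H185.ZM.EE_eq_top]
  unfold Pool.Agent.H185.ZM.EE
  rw [Subgroup.closure_le]
  rintro _ ⟨i, j, h, c, rfl⟩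
  have hne : i.succ ≠ j.succ := fun h2 => h (Fin.succ_injective _ h2)
  have hch : ch (s0 k) (of i.succ ^ c) = 1 := by
    rw [map_zpow, ch_of, s0_succ, _root_.one_zpow]
  have hk : kil j.succ (of i.succ ^ c) = of i.succ ^ c := by
    rw [map_zpow, kil_ne hne]
  refine ⟨rr j.succ (of i.succ ^ c), rr_St hk _ hch, ?_⟩
  have h1 : mJ (s0 k) (rr j.succ (of i.succ ^ c)) =
      transvection i.succ j.succ ((s0 k j.succ : ℤ) * c) := by
    apply mJ_rr hne hk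
    rw [dv_zpow (by rw [ch_of, s0_succ]), dv_of]
  rw [s0_succ, Units.val_one, one_mul] at h1
  rw [Bk_of_trans h1]
  rfl

/-- The matrices which lift to the isolated subgroup. -/
def L0 (N : Subgroup (MulAut (FreeGroup (Fin (k + 1))))) (M : ℤ) :
    Subgroup (SpecialLinearGroup (Fin k) ℤ) where
  carrier := {A | ∃ β ∈ Nn N (s0 k), β ∈ Fm (s0 k) M ∧ Bk β = mt A}
  mul_mem' := by
    rintro A B ⟨β, hβ, hβ2, h1⟩ ⟨γ, hγ, hγ2, h2⟩
    exact ⟨β * γ, mul_mem hβ hγ, mul_mem hβ2 hγ2, by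
      rw [Bk_mul (mem_Nn.1 hβ).2.1 (mem_Nn.1 hγ).2.1, h1, h2, mt_mul]⟩
  one_mem' := ⟨1, one_mem _, one_mem _, by rw [Bk_one, mt_one]⟩
  inv_mem' := by
    rintro A ⟨β, hβ, hβ2, h1⟩
    exact ⟨β⁻¹, inv_mem hβ, inv_mem hβ2, Bk_inv_of (mem_Nn.1 hβ).2.1 h1⟩

instance L0_normal (N : Subgroup (MulAut (FreeGroup (Fin (k + 1))))) [hN : N.Normal] (M : ℤ) :
    (L0 N M).Normal := by
  refine ⟨?_⟩
  rintro A ⟨β, hβ, hβ2, h1⟩ B
  obtain ⟨γ, hγ, hγ2⟩ : B ∈ Lf k := by rw [Lf_top]; exact Subgroup.mem_top _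
  refine ⟨γ * β * γ⁻¹, Nn_conj (by rw [tr_of_St hγ]; exact hβ),
    Fm_conj (by rw [tr_of_St hγ]; exact hβ2), ?_⟩
  have hβ3 := (mem_Nn.1 hβ).2.1
  rw [Bk_mul (mul_mem hγ hβ3) (inv_mem hγ), Bk_mul hγ hβ3, h1, hγ2, Bk_inv_of hγ hγ2, mt_mul,
    mt_mul]

/-- The columns which lift. -/
def C0 (N : Subgroup (MulAut (FreeGroup (Fin (k + 1))))) : AddSubgroup (Fin (k + 1) → ℤ) where
  carrier := {c | c 0 = 0 ∧ ∃ ν ∈ Nn N (s0 k), ∀ w, dv (s0 k) (ν w) =
    dv (s0 k) w + dv (s0 k) w 0 • c}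
  add_mem' := by
    rintro a b ⟨ha, ν, hν, h1⟩ ⟨hb, μ, hμ, h2⟩
    refine ⟨by rw [Pi.add_apply, ha, hb, add_zero], ν * μ, mul_mem hν hμ, fun w => ?_⟩
    rw [MulAut.mul_apply, h1, dv_zero_St (mem_Nn.1 hμ).2.1, h2, smul_add]
    abel
  zero_mem' := ⟨rfl, 1, one_mem _, fun w => by rw [MulAut.one_apply, smul_zero, add_zero]⟩
  neg_mem' := by
    rintro a ⟨ha, ν, hν, h1⟩
    refine ⟨by rw [Pi.neg_apply, ha, neg_zero], ν⁻¹, inv_mem hν, fun w => ?_⟩
    have h2 := h1 (ν⁻¹ w)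
    rw [← MulAut.mul_apply, mul_inv_cancel, MulAut.one_apply,
      dv_zero_St (inv_mem (mem_Nn.1 hν).2.1)] at h2
    rw [smul_neg, ← sub_eq_add_neg]
    exact eq_sub_of_add_eq h2.symm

end blk

theorem key_s0 {n : ℕ} {N : Subgroup (MulAut (FreeGroup (Fin (n + 3 + 1))))} [hN : N.Normal] {m : ℕ}
    (hm : ∀ x : MulAut (FreeGroup (Fin (n + 3 + 1))), x ^ m ∈ N) (hm0 : m ≠ 0) :
    Key N (4 ^ Fintype.card (Fin (n + 3 + 1)) * (m : ℤ)) (s0 (n + 3)) := by
  intro α hα hα2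
  set M : ℤ := 4 ^ Fintype.card (Fin (n + 3 + 1)) * (m : ℤ) with hMdef
  have hM3 : 3 ≤ M := by
    have h1 : (4 : ℤ) ≤ 4 ^ Fintype.card (Fin (n + 3 + 1)) := by
      rw [Fintype.card_fin]
      calc (4 : ℤ) = 4 ^ 1 := by norm_num
        _ ≤ 4 ^ (n + 3 + 1) := pow_le_pow_right₀ (by norm_num) (by omega)
    have h2 : (1 : ℤ) ≤ m := by exact_mod_cast Nat.one_le_iff_ne_zero.2 hm0
    nlinarith
  have hc : ∀ i j, M ∣ Bk α i j - (1 : Matrix (Fin (n + 3)) (Fin (n + 3)) ℤ) i j := by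
    intro i j
    have h1 := mJ_of_Fm hα2 i.succ j.succ
    have h2 : (1 : Matrix (Fin (n + 3 + 1)) (Fin (n + 3 + 1)) ℤ) i.succ j.succ =
        (1 : Matrix (Fin (n + 3)) (Fin (n + 3)) ℤ) i j := by
      rw [Matrix.one_apply, Matrix.one_apply]
      simp
    rw [h2] at h1
    exact h1
  have hdet : (Bk α).det = 1 := det_one_of_cong (B := Bk α⁻¹)
    (by rw [← Bk_mul hα (inv_mem hα), mul_inv_cancel, Bk_one]) hM3 hc
  have h1 : (⟨Bk α, hdet⟩ : SpecialLinearGroup (Fin (n + 3)) ℤ) ∈ El (Fin (n + 3)) M :=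
    bls (by omega) n _ hc
  have h2 : El (Fin (n + 3)) M ≤ L0 N M := by
    apply El_le
    intro i j hij
    obtain ⟨l, hl1, hl2⟩ := exists_third j i
    have e1 : j.succ ≠ i.succ := fun h => hij.symm (Fin.succ_injective _ h)
    have e2 : j.succ ≠ l.succ := fun h => hl1 (Fin.succ_injective _ h)
    have e3 : i.succ ≠ l.succ := fun h => hl2 (Fin.succ_injective _ h)
    obtain ⟨ν, hν, h3⟩ := exists_elem (N := N) hm (s := s0 (n + 3)) e1 e2 e3 (s0_succ i) (s0_succ l)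
    refine ⟨ν, hν, ?_, ?_⟩
    · apply mem_Fm_of_mJ (mem_Nn.1 hν).2.1
      intro p q
      rw [h3]
      unfold transvection
      rw [Matrix.add_apply, add_sub_cancel_left, Matrix.single_apply]
      split_ifs
      · exact dvd_refl _
      · exact dvd_zero _
    · rw [Bk_of_trans h3]
      rfl
  obtain ⟨ν, hν, hν2, h3⟩ := h2 h1
  have h3' : Bk ν = Bk α := h3
  have hνS := (mem_Nn.1 hν).2.1
  have hβS : ν⁻¹ * α ∈ St (s0 (n + 3)) := mul_mem (inv_mem hνS) hα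
  have hβM : ν⁻¹ * α ∈ Fm (s0 (n + 3)) M := mul_mem (inv_mem hν2) hα2
  have hβB : Bk (ν⁻¹ * α) = 1 := by
    rw [Bk_mul (inv_mem hνS) hα, ← h3', ← Bk_mul (inv_mem hνS) hνS, inv_mul_cancel, Bk_one]
  -- the column
  have hcol : ∀ c : Fin (n + 3 + 1) → ℤ, c 0 = 0 → (∀ j, M ∣ c j) → c ∈ C0 N := by
    intro c hc0 hc1
    have h4 : c = ∑ j : Fin (n + 3), (c j.succ / M) • (Pi.single j.succ M : Fin (n + 3 + 1) → ℤ) := by
      funext p
      rw [Finset.sum_apply]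
      refine Fin.cases ?_ (fun p' => ?_) p
      · rw [hc0]
        symm
        apply Finset.sum_eq_zero
        intro j _
        rw [Pi.smul_apply, Pi.single_eq_of_ne (Fin.succ_ne_zero j).symm, smul_zero]
      · rw [Finset.sum_eq_single p']
        · rw [Pi.smul_apply, Pi.single_eq_same, smul_eq_mul, Int.ediv_mul_cancel (hc1 _)]
        · intro b _ hb
          rw [Pi.smul_apply, Pi.single_eq_of_ne (fun h => hb (Fin.succ_injective _ h).symm),
            smul_zero]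
        · intro h
          exact absurd (Finset.mem_univ _) h
    rw [h4]
    apply AddSubgroup.sum_mem
    intro j _
    apply AddSubgroup.zsmul_mem
    obtain ⟨l, hl1, hl2⟩ := exists_third j j
    have e1 : (0 : Fin (n + 3 + 1)) ≠ j.succ := (Fin.succ_ne_zero j).symm
    have e2 : (0 : Fin (n + 3 + 1)) ≠ l.succ := (Fin.succ_ne_zero l).symm
    have e3 : j.succ ≠ l.succ := fun h => hl2 (Fin.succ_injective _ h)
    obtain ⟨μ, hμ, h5⟩ := exists_elem (N := N) hm (s := s0 (n + 3)) e1 e2 e3 (s0_succ j) (s0_succ l)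
    refine ⟨Pi.single_eq_of_ne e1 _, μ, hμ, fun w => ?_⟩
    rw [← mJ_dv (mem_Nn.1 hμ).2.1, h5]
    unfold transvection
    rw [add_mulVec, one_mulVec, single_mulVec]
    congr 1
    funext p
    rw [Pi.smul_apply, Pi.single_apply]
    show Function.update (0 : Fin (n + 3 + 1) → ℤ) j.succ _ p = _
    by_cases hp : p = j.succ
    · subst hp
      rw [Function.update_self, if_pos rfl, smul_eq_mul, mul_comm]
    · rw [Function.update_of_ne hp, if_neg hp, smul_zero]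
      rfl
  have hc2 : (fun p => mJ (s0 (n + 3)) (ν⁻¹ * α) p 0 -
      (1 : Matrix (Fin (n + 3 + 1)) (Fin (n + 3 + 1)) ℤ) p 0) ∈ C0 N := by
    apply hcol
    · show mJ (s0 (n + 3)) (ν⁻¹ * α) 0 0 - (1 : Matrix (Fin (n + 3 + 1)) (Fin (n + 3 + 1)) ℤ) 0 0 = 0
      rw [mJ_zero_zero hβS, Matrix.one_apply_eq, sub_self]
    · intro j
      exact mJ_of_Fm hβM j 0
  obtain ⟨-, μ, hμ, h5⟩ := hc2
  have h6 : ∀ w, dv (s0 (n + 3)) (μ w) = dv (s0 (n + 3)) ((ν⁻¹ * α) w) := by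
    intro w
    rw [h5, ← mJ_dv hβS]
    funext p
    show dv (s0 (n + 3)) w p + dv (s0 (n + 3)) w 0 * (mJ (s0 (n + 3)) (ν⁻¹ * α) p 0 -
      (1 : Matrix (Fin (n + 3 + 1)) (Fin (n + 3 + 1)) ℤ) p 0) = ∑ j, mJ (s0 (n + 3)) (ν⁻¹ * α) p j * dv (s0 (n + 3)) w j
    rw [Fin.sum_univ_succ]
    refine Fin.cases ?_ (fun p' => ?_) p
    · rw [Finset.sum_eq_zero (fun j _ => by rw [mJ_zero_succ hβS, zero_mul]), mJ_zero_zero hβS,
        Matrix.one_apply_eq]
      ring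
    · have h7 : ∀ j : Fin (n + 3), mJ (s0 (n + 3)) (ν⁻¹ * α) p'.succ j.succ =
          (1 : Matrix (Fin (n + 3)) (Fin (n + 3)) ℤ) p' j := fun j => congrFun (congrFun hβB p') j
      rw [Matrix.one_apply_ne (Fin.succ_ne_zero p'), Finset.sum_eq_single p']
      · rw [h7, Matrix.one_apply_eq]
        ring
      · intro b _ hb
        rw [h7, Matrix.one_apply_ne hb.symm, zero_mul]
      · intro h
        exact absurd (Finset.mem_univ _) h
  refine ⟨ν * μ, mul_mem hν hμ, fun w => ?_⟩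
  rw [MulAut.mul_apply, ← mJ_dv hνS, h6, mJ_dv hνS, ← MulAut.mul_apply, mul_inv_cancel_left]

lemma exists_tr {k : ℕ} {s : Fin (k + 1) → ℤˣ} (hs : s ≠ 1) :
    ∃ β : MulAut (FreeGroup (Fin (k + 1))), tr β s = s0 k := by
  obtain ⟨i, hi⟩ : ∃ i, s i = -1 := by
    by_contra h
    push Not at h
    apply hs
    funext i
    exact (Int.units_eq_one_or (s i)).resolve_right (h i)
  have h1 : tr (toAut (tauP 0 i)) s 0 = -1 := by
    show ch s (toAut (tauP 0 i) (of 0)) = -1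
    rw [toAut_tauP, ch_of, Equiv.swap_apply_left, hi]
  set s' := tr (toAut (tauP 0 i)) s with hs'
  refine ⟨toAut (tauP 0 i) * th 0 (fun j => if s' j = -1 then 1 else 0), ?_⟩
  rw [← tr_tr, ← hs']
  funext j
  show ch s' (th 0 _ (of j)) = s0 k j
  rw [th_of]
  refine Fin.cases ?_ (fun j' => ?_) j
  · rw [if_pos rfl, ch_of, h1, s0_zero]
  · rw [if_neg (Fin.succ_ne_zero j'), map_mul, map_zpow, ch_of, ch_of, h1, s0_succ]
    rcases Int.units_eq_one_or (s' j'.succ) with h | h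
    · rw [h]; decide
    · rw [h]; decide

theorem key_all {n : ℕ} {N : Subgroup (MulAut (FreeGroup (Fin (n + 3 + 1))))} [hN : N.Normal] {m : ℕ}
    (hm : ∀ x : MulAut (FreeGroup (Fin (n + 3 + 1))), x ^ m ∈ N) (hm0 : m ≠ 0)
    (s : Fin (n + 3 + 1) → ℤˣ) : Key N (4 ^ Fintype.card (Fin (n + 3 + 1)) * (m : ℤ)) s := by
  by_cases hs : s = 1
  · subst hs
    exact key_triv (n := n + 1) hm hm0
  · obtain ⟨β, hβ⟩ := exists_tr hs
    apply key_tr β
    rw [hβ]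
    exact key_s0 hm hm0

end Pool.Agent.H19W.CS
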