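import Pool.Agent.H19W.CS.Fin

/-!
# The kernel of `F → {±1}^n` is generated by squares
-/

set_option autoImplicit false
set_option linter.all false

namespace Pool.Agent.H19W.CS

open FreeGroup (of)

variable {ι : Type} [DecidableEq ι] [Fintype ι]

/-- a homomorphism to a commutative group of exponent two factors through `pr` -/
lemma factor_two {A : Type} [CommGroup A] (hA : ∀ a : A, a ^ 2 = 1) (g : FreeGroup ι →* A)
    {w : FreeGroup ι} (hw : pr w = 1) : g w = 1 := by
  let θ : (ι → ℤˣ) →* A :=
    { toFun := fun m => ∏ i, if m i = -1 then g (of i) else 1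
      map_one' := by
        apply Finset.prod_eq_one
        intro i _
        rw [if_neg]
        show ¬ ((1 : ℤˣ) = -1)
        decide
      map_mul' := by
        intro a b
        rw [← Finset.prod_mul_distrib]
        apply Finset.prod_congr rfl
        intro i _
        have h2 : g (of i) * g (of i) = 1 := by rw [← pow_two]; exact hA _
        have e1 : ¬ ((1 : ℤˣ) = -1) := by decide
        have e2 : (-1 : ℤˣ) * -1 = 1 := by decide
        have e3 : (-1 : ℤˣ) * 1 = -1 := by decide
        have e4 : (1 : ℤˣ) * -1 = -1 := by decide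
        rw [Pi.mul_apply]
        rcases Int.units_eq_one_or (a i) with h | h <;>
          rcases Int.units_eq_one_or (b i) with h' | h' <;> rw [h, h']
        · rw [mul_one, if_neg e1, mul_one]
        · rw [e4, if_pos rfl, if_neg e1, one_mul]
        · rw [e3, if_pos rfl, if_neg e1, mul_one]
        · rw [e2, if_neg e1, if_pos rfl, h2] }
  have h1 : θ.comp pr = g := by
    ext i
    rw [MonoidHom.comp_apply, pr_of]
    show ∏ j, (if (Pi.mulSingle i (-1) : ι → ℤˣ) j = -1 then g (of j) else 1) = g (of i)
    rw [Finset.prod_eq_single i]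
    · rw [Pi.mulSingle_eq_same, if_pos rfl]
    · intro b _ hb
      rw [Pi.mulSingle_eq_of_ne hb, if_neg]
      decide
    · intro h
      exact absurd (Finset.mem_univ _) h
  rw [← h1, MonoidHom.comp_apply, hw, map_one]

lemma ker_le_of_sq {P : Subgroup (FreeGroup ι)} (hP : ∀ w : FreeGroup ι, w ^ 2 ∈ P) :
    (pr (ι := ι)).ker ≤ P := by
  let S : Subgroup (FreeGroup ι) := Subgroup.normalClosure {x | ∃ w : FreeGroup ι, x = w ^ 2}
  have hSP : S ≤ P := by
    have h1 : S ≤ Subgroup.closure {x | ∃ w : FreeGroup ι, x = w ^ 2} := by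
      apply Subgroup.closure_le _ |>.2
      intro x hx
      rw [Group.mem_conjugatesOfSet_iff] at hx
      obtain ⟨y, ⟨w, rfl⟩, hy⟩ := hx
      obtain ⟨c, rfl⟩ := isConj_iff.1 hy
      apply Subgroup.subset_closure
      refine ⟨c * w * c⁻¹, ?_⟩
      rw [pow_two, pow_two]
      group
    refine h1.trans ((Subgroup.closure_le _).2 ?_)
    rintro _ ⟨w, rfl⟩
    exact hP w
  have hsq : ∀ q : FreeGroup ι ⧸ S, q ^ 2 = 1 := by
    intro q
    induction q using QuotientGroup.induction_on with
    | H z =>
      rw [← QuotientGroup.mk_pow, QuotientGroup.eq_one_iff]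
      exact Subgroup.subset_normalClosure ⟨z, rfl⟩
  have hcomm : ∀ a b : FreeGroup ι ⧸ S, a * b = b * a := by
    intro a b
    have ha : a⁻¹ = a := by
      rw [inv_eq_iff_mul_eq_one, ← pow_two]; exact hsq a
    have hb : b⁻¹ = b := by
      rw [inv_eq_iff_mul_eq_one, ← pow_two]; exact hsq b
    have hab : (a * b)⁻¹ = a * b := by
      rw [inv_eq_iff_mul_eq_one, ← pow_two]; exact hsq _
    rw [← hab, mul_inv_rev, ha, hb]
  letI : CommGroup (FreeGroup ι ⧸ S) :=
    { (inferInstance : Group (FreeGroup ι ⧸ S)) with mul_comm := hcomm }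
  intro w hw
  apply hSP
  have h1 := factor_two hsq (QuotientGroup.mk' S) (MonoidHom.mem_ker.1 hw)
  rwa [QuotientGroup.mk'_apply, QuotientGroup.eq_one_iff] at h1

end Pool.Agent.H19W.CS
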