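import Pool.Agent.Helper460_CSP.Sur
import Pool.Agent.Helper777.Prof.P_magnus_ker

/-!
# Twisted Fox derivatives for the sign characters of a free group
-/

set_option autoImplicit false
set_option linter.all false

namespace Pool.Agent.H19W.CS

open Pool.Agent.Helper460_OutF Pool.Agent.Helper460_CSP
open Pool.Agent.Helper777.Prof (Wr mag magnus_ker mag_m)
open FreeGroup (of)
open Matrix hiding of zpow_neg
open scoped commutatorElement

variable {ι : Type} [DecidableEq ι] [Fintype ι]

/-- The homomorphism of the free group onto `{±1}^ι`. -/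
def pr : FreeGroup ι →* (ι → ℤˣ) := FreeGroup.lift (fun i => Pi.mulSingle i (-1))

lemma pr_of (i : ι) : pr (of i) = Pi.mulSingle i (-1) := by
  unfold pr
  rw [FreeGroup.lift_apply_of]

/-- The characters of `{±1}^ι`. -/
def cs (s : ι → ℤˣ) : (ι → ℤˣ) →* ℤˣ where
  toFun m := ∏ i, if s i = -1 then m i else 1
  map_one' := by simp
  map_mul' a b := by
    rw [← Finset.prod_mul_distrib]
    apply Finset.prod_congr rfl
    intro i _
    split_ifs <;> simp

lemma cs_apply (s m : ι → ℤˣ) : cs s m = ∏ i, if s i = -1 then m i else 1 := rfl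

/-- The characters of the free group with values `±1`. -/
def ch (s : ι → ℤˣ) : FreeGroup ι →* ℤˣ := (cs s).comp pr

lemma ch_of (s : ι → ℤˣ) (j : ι) : ch s (of j) = s j := by
  show cs s (pr (of j)) = s j
  rw [pr_of, cs_apply, Finset.prod_eq_single j]
  · rw [Pi.mulSingle_eq_same]
    rcases Int.units_eq_one_or (s j) with h | h
    · rw [h]; decide
    · rw [h]; decide
  · intro b _ hb
    rw [Pi.mulSingle_eq_of_ne hb]
    split_ifs <;> rfl
  · intro h
    exact absurd (Finset.mem_univ _) h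

/-- The evaluation of the group ring at a character. -/
noncomputable def ev (s : ι → ℤˣ) : MonoidAlgebra ℤ (ι → ℤˣ) →ₐ[ℤ] ℤ :=
  MonoidAlgebra.lift ℤ ℤ (ι → ℤˣ) ((Units.coeHom ℤ).comp (cs s))

lemma ev_single (s m : ι → ℤˣ) (n : ℤ) :
    ev s (MonoidAlgebra.single m n) = n * (cs s m : ℤ) := by
  unfold ev
  rw [MonoidAlgebra.lift_single]
  rfl

lemma ev_of (s m : ι → ℤˣ) : ev s (MonoidAlgebra.of ℤ (ι → ℤˣ) m) = (cs s m : ℤ) := by
  rw [MonoidAlgebra.of_apply, ev_single, one_mul]

/-- The Fox derivative, evaluated at the character. -/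
noncomputable def dv (s : ι → ℤˣ) (w : FreeGroup ι) : ι → ℤ := fun k => ev s ((mag pr w).v k)

lemma dv_mul (s : ι → ℤˣ) (a b : FreeGroup ι) : dv s (a * b) = dv s a + (ch s a : ℤ) • dv s b := by
  funext k
  show ev s ((mag pr (a * b)).v k) = ev s ((mag pr a).v k) + (ch s a : ℤ) * ev s ((mag pr b).v k)
  rw [map_mul, Wr.mul_v, mag_m, Pi.add_apply, Pi.smul_apply, smul_eq_mul, map_add, map_mul, ev_of]
  rfl

lemma dv_one (s : ι → ℤˣ) : dv s (1 : FreeGroup ι) = 0 := by
  funext k
  show ev s ((mag pr (1 : FreeGroup ι)).v k) = 0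
  rw [map_one, Wr.one_v, Pi.zero_apply, map_zero]

lemma dv_of (s : ι → ℤˣ) (j : ι) : dv s (of j) = Pi.single j 1 := by
  funext k
  show ev s ((mag pr (of j)).v k) = _
  unfold mag
  rw [FreeGroup.lift_apply_of]
  show ev s ((Pi.single j 1 : ι → MonoidAlgebra ℤ (ι → ℤˣ)) k) = _
  by_cases h : k = j
  · subst h
    rw [Pi.single_eq_same, Pi.single_eq_same, map_one]
  · rw [Pi.single_eq_of_ne h, Pi.single_eq_of_ne h, map_zero]

lemma dv_inv (s : ι → ℤˣ) (a : FreeGroup ι) : dv s a⁻¹ = -((ch s a : ℤ) • dv s a) := by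
  have h := dv_mul s a⁻¹ a
  rw [inv_mul_cancel, dv_one, map_inv] at h
  have h2 : (((ch s a)⁻¹ : ℤˣ) : ℤ) = (ch s a : ℤ) := by
    rcases Int.units_eq_one_or (ch s a) with h | h <;> rw [h] <;> decide
  rw [h2] at h
  exact eq_neg_of_add_eq_zero_left h.symm

/-- The fundamental formula. -/
lemma dv_fund (s : ι → ℤˣ) (w : FreeGroup ι) :
    ∑ j, dv s w j * ((s j : ℤ) - 1) = (ch s w : ℤ) - 1 := by
  induction w using FreeGroup.induction_on with
  | C1 => rw [dv_one, map_one]; simp
  | of j =>
    show ∑ k, dv s (of j) k * ((s k : ℤ) - 1) = (ch s (of j) : ℤ) - 1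
    rw [dv_of, ch_of, Finset.sum_eq_single j]
    · rw [Pi.single_eq_same, one_mul]
    · intro b _ hb
      rw [Pi.single_eq_of_ne hb, zero_mul]
    · intro h
      exact absurd (Finset.mem_univ _) h
  | inv_of j ih =>
    have ih' : ∑ k, dv s (of j) k * ((s k : ℤ) - 1) = (ch s (of j) : ℤ) - 1 := ih
    show ∑ k, dv s (of j)⁻¹ k * ((s k : ℤ) - 1) = (ch s (of j)⁻¹ : ℤ) - 1
    have h1 : ∀ k, dv s (of j)⁻¹ k * ((s k : ℤ) - 1) =
        -(ch s (of j) : ℤ) * (dv s (of j) k * ((s k : ℤ) - 1)) := by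
      intro k
      rw [dv_inv, Pi.neg_apply, Pi.smul_apply, smul_eq_mul]
      ring
    rw [Finset.sum_congr rfl (fun k _ => h1 k), ← Finset.mul_sum, ih', map_inv]
    rcases Int.units_eq_one_or (ch s (of j)) with h | h <;> rw [h] <;> decide
  | mul a b ha hb =>
    have h1 : ∀ k, dv s (a * b) k * ((s k : ℤ) - 1) =
        dv s a k * ((s k : ℤ) - 1) + (ch s a : ℤ) * (dv s b k * ((s k : ℤ) - 1)) := by
      intro k
      rw [dv_mul, Pi.add_apply, Pi.smul_apply, smul_eq_mul]
      ring
    rw [Finset.sum_congr rfl (fun k _ => h1 k), Finset.sum_add_distrib, ← Finset.mul_sum, ha, hb,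
      map_mul, Units.val_mul]
    ring

/-- The sum of the characters. -/
lemma sum_cs (m : ι → ℤˣ) : ∑ s : ι → ℤˣ, (cs s m : ℤ) = if m = 1 then 2 ^ Fintype.card ι else 0 := by
  have h1 : ∑ s : ι → ℤˣ, (cs s m : ℤ) = ∏ i : ι, ∑ e : ℤˣ, (if e = -1 then (m i : ℤ) else 1) := by
    rw [Finset.prod_univ_sum, Fintype.piFinset_univ]
    apply Finset.sum_congr rfl
    intro s _
    rw [cs_apply, Units.coe_prod]
    apply Finset.prod_congr rfl
    intro i _
    split_ifs <;> rfl
  have h2 : ∀ i : ι, ∑ e : ℤˣ, (if e = -1 then (m i : ℤ) else 1) = 1 + (m i : ℤ) := by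
    intro i
    have : (Finset.univ : Finset ℤˣ) = {1, -1} := by decide
    rw [this, Finset.sum_pair (by decide), if_neg (by decide), if_pos rfl]
  rw [h1, Finset.prod_congr rfl (fun i _ => h2 i)]
  split_ifs with h
  · subst h
    have : ∀ i ∈ (Finset.univ : Finset ι), (1 : ℤ) + (((1 : ι → ℤˣ) i : ℤˣ) : ℤ) = 2 := by
      intro i _
      rfl
    rw [Finset.prod_congr rfl this, Finset.prod_const, Finset.card_univ]
  · have h3 : ∃ i, m i = -1 := by
      by_contra h4
      push_neg at h4
      apply h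
      funext i
      rcases Int.units_eq_one_or (m i) with h5 | h5
      · exact h5
      · exact absurd h5 (h4 i)
    obtain ⟨i, hi⟩ := h3
    apply Finset.prod_eq_zero (Finset.mem_univ i)
    rw [hi]
    rfl

lemma fourier (f : MonoidAlgebra ℤ (ι → ℤˣ)) (m : ι → ℤˣ) :
    ∑ s : ι → ℤˣ, (cs s m : ℤ) * ev s f = 2 ^ Fintype.card ι * f.coeff m := by
  induction f using MonoidAlgebra.induction_linear with
  | zero => simp
  | add f g hf hg =>
    have : ∀ s : ι → ℤˣ, (cs s m : ℤ) * ev s (f + g) =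
        (cs s m : ℤ) * ev s f + (cs s m : ℤ) * ev s g := by
      intro s
      rw [map_add, mul_add]
    rw [Finset.sum_congr rfl (fun s _ => this s), Finset.sum_add_distrib, hf, hg,
      MonoidAlgebra.coeff_add, Finsupp.add_apply, mul_add]
  | single x n =>
    have : ∀ s : ι → ℤˣ, (cs s m : ℤ) * ev s (MonoidAlgebra.single x n) =
        n * (cs s (m * x) : ℤ) := by
      intro s
      rw [ev_single, map_mul, Units.val_mul]
      ring
    rw [Finset.sum_congr rfl (fun s _ => this s), ← Finset.mul_sum, sum_cs,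
      MonoidAlgebra.coeff_single, Finsupp.single_apply]
    have h2 : m * x = 1 ↔ x = m := by
      constructor
      · intro h
        funext i
        have h3 : m i * x i = 1 := congrFun h i
        rcases Int.units_eq_one_or (m i) with h4 | h4 <;> rcases Int.units_eq_one_or (x i) with h5 | h5 <;>
          rw [h4, h5] at h3 ⊢
        · exact absurd h3 (by decide)
        · exact absurd h3 (by decide)
      · intro h
        subst h
        funext i
        rcases Int.units_eq_one_or (x i) with h5 | h5 <;> simp [h5]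
    by_cases h : x = m
    · rw [if_pos h, if_pos (h2.2 h)]; ring
    · rw [if_neg h, if_neg (fun h3 => h (h2.1 h3))]; ring

lemma ch_all {w : FreeGroup ι} (h : ∀ s : ι → ℤˣ, ch s w = 1) : pr w = 1 := by
  funext i
  have h1 := h (Pi.mulSingle i (-1))
  have h2 : ch (Pi.mulSingle i (-1)) w = pr w i := by
    show cs _ (pr w) = _
    rw [cs_apply, Finset.prod_eq_single i]
    · rw [Pi.mulSingle_eq_same, if_pos rfl]
    · intro b _ hb
      rw [Pi.mulSingle_eq_of_ne hb, if_neg (by decide)]
    · intro h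
      exact absurd (Finset.mem_univ _) h
  rw [← h2, h1]
  rfl

lemma mem_ker_iff {w : FreeGroup ι} : w ∈ (pr (ι := ι)).ker ↔ ∀ s : ι → ℤˣ, ch s w = 1 := by
  constructor
  · intro h s
    show cs s (pr w) = 1
    rw [MonoidHom.mem_ker.1 h, map_one]
  · intro h
    exact MonoidHom.mem_ker.2 (ch_all h)

lemma pr_surj : Function.Surjective (pr (ι := ι)) := by
  rw [← MonoidHom.range_eq_top, eq_top_iff]
  intro m _
  have h1 : m = ∏ i, Pi.mulSingle i (m i) := by
    funext j
    rw [Finset.prod_apply, Finset.prod_eq_single j]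
    · rw [Pi.mulSingle_eq_same]
    · intro b _ hb
      rw [Pi.mulSingle_eq_of_ne (Ne.symm hb)]
    · intro h
      exact absurd (Finset.mem_univ _) h
  rw [h1]
  apply Subgroup.prod_mem
  intro i _
  rcases Int.units_eq_one_or (m i) with h | h
  · rw [h, Pi.mulSingle_one]
    exact one_mem _
  · rw [h, ← pr_of]
    exact ⟨_, rfl⟩

/-- **Magnus**: an element with vanishing derivatives at all characters is in `[Γ, Γ]`. -/
theorem magnus {w : FreeGroup ι} (h : ∀ s : ι → ℤˣ, dv s w = 0) :
    w ∈ ⁅(pr (ι := ι)).ker, (pr (ι := ι)).ker⁆ := by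
  apply magnus_ker pr pr_surj
  have h1 : ∀ s : ι → ℤˣ, ch s w = 1 := by
    intro s
    have := dv_fund s w
    rw [h s] at this
    simp at this
    have h2 : (ch s w : ℤ) = 1 := by linarith
    exact Units.ext h2
  have h2 : (mag pr w).v = 0 := by
    funext k
    have h3 : ∀ m, ((mag pr w).v k).coeff m = 0 := by
      intro m
      have h4 := fourier ((mag pr w).v k) m
      have h5 : ∀ s : ι → ℤˣ, ev s ((mag pr w).v k) = 0 := fun s => congrFun (h s) k
      simp only [h5, mul_zero, Finset.sum_const_zero] at h4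
      have h6 : (2 : ℤ) ^ Fintype.card ι ≠ 0 := by positivity
      rcases mul_eq_zero.1 h4.symm with h7 | h7
      · exact absurd h7 h6
      · exact h7
    have h4 : ((mag pr w).v k).coeff = 0 := Finsupp.ext h3
    have h5 := MonoidAlgebra.coeffAddEquiv.injective (a₁ := (mag pr w).v k) (a₂ := 0) (by
      rw [map_zero]
      exact h4)
    exact h5
  have h3 : (mag pr w).m = 1 := by
    rw [mag_m]
    exact ch_all h1
  exact Wr.ext h2 h3

end Pool.Agent.H19W.CS
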